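import Pool.Agent.Helper19.HO.St

/-! # HO, module CHO: the chain of atoms, for ordinals -/

namespace Pool.Agent.Helper19.HO.CHO

open Ordinal Cardinal ZFSet Order Pool.Agent.Helper73.HODC Pool.Agent.Helper73.HM
open Pool.Agent.Helper73.HE Pool.Agent.Helper73.HU Pool.Agent.Helper73.HX Pool.Agent.Helper19.HN
open Pool.Agent.Helper19.HO Pool.Agent.Helper34.HM

theorem cho : StCHO := by
  intro κ τ hκ hκc hyp
  have h2 := Inp.le
  have h3 := Inp.ld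
  have h4 := Inp.re
  have h5 := Inp.hp
  have h6 := Inp.cf
  have hD : DPr (Ch κ τ) := dp_ch h3 h4 h5 h6 κ τ
  -- consequences of the existence of the least set
  have key : ∀ ζ, (∃ B, LeastOD τ (PCh κ τ (Ch κ τ) ζ) B) →
      (∀ a ∈ Ch κ τ ζ, a < τ) ∧ Pool.Agent.Helper73.HM.Atom τ (Ch κ τ ζ) ∧
        ∀ σ ∈ Ch κ τ ζ, ℵ₀ < σ.cof ∧ σ.cof < κ ∧ ∀ ξ < ζ, Stat (Ch κ τ ξ) σ := by
    rintro ζ ⟨B, hB⟩
    have h : Ch κ τ ζ = st B := by
      ext a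
      rw [mem_Ch]
      constructor
      · rintro ⟨B', hB', h⟩
        rwa [h2.1 _ _ _ _ hB' hB] at h
      · intro h
        exact ⟨B, hB, h⟩
    rw [h]
    exact ⟨fun a ha => lt_of_mem_st hB.1.2.1 ha, hB.1.2.2.1, hB.1.2.2.2⟩
  have main : ∀ ζ, ζ < κ.ord → ∃ B, LeastOD τ (PCh κ τ (Ch κ τ) ζ) B := by
    intro ζ
    induction ζ using WellFoundedLT.induction with
    | ind ζ ih =>
      intro hζ
      have ih' : ∀ ξ < ζ, _ := fun ξ hξ => key ξ (ih ξ hξ (hξ.trans hζ))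
      have hT : Stat {σ | ℵ₀ < σ.cof ∧ σ.cof < κ ∧
          ∀ i : ζ.ToType, Stat (Ch κ τ ((ToType.mk).symm i).1) σ} τ := by
        refine Inp.rf κ τ hκ hκc ζ.ToType ?_ _ ?_ ?_
        · rw [mk_toType]
          exact lt_ord.1 hζ
        · intro i
          exact (ih' _ ((ToType.mk).symm i).2).2.1.1
        · intro i a ha
          exact ((ih' _ ((ToType.mk).symm i).2).2.2 a ha).2.1
      have hT' : Stat {σ | ℵ₀ < σ.cof ∧ σ.cof < κ ∧ ∀ ξ < ζ, Stat (Ch κ τ ξ) σ} τ := by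
        refine hT.mono fun σ hσ _ => ⟨hσ.1, hσ.2.1, fun ξ hξ => ?_⟩
        have := hσ.2.2 (ToType.mk ⟨ξ, hξ⟩)
        simpa using this
      have hTD : DPs {σ | ℵ₀ < σ.cof ∧ σ.cof < κ ∧ ∀ ξ < ζ, Stat (Ch κ τ ξ) σ} := by
        refine DP.and (dp_cof h6 0) (DP.and (h6 κ 0) ?_)
        refine DP.allO (Q := fun ξ v => ξ < ζ → Stat (Ch κ τ ξ) (v 0).rank) ?_
        refine DP.imp (DP.rank_lt_ord 0 ζ) ?_
        exact DP.statV (Q := fun a v => a ∈ Ch κ τ (v 0).rank) (DPr.at hD 0 1) 1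
      obtain ⟨A', hA1, hA2, hA3⟩ := hyp _ hTD hT' fun a ha => ⟨ha.1, ha.2.1⟩
      have hst : st (ordSet τ A') = A' := by
        ext a
        rw [mem_st_ordSet]
        exact ⟨fun h => h.2, fun h => ⟨(hA2 a h).2, h⟩⟩
      refine h2.2 _ _ ⟨ordSet τ A', od_ordSet hA1 _, ordSet_sub _ _, ?_, ?_⟩
      · rw [hst]; exact hA3
      · rw [hst]
        intro σ hσ
        exact (hA2 σ hσ).1
  exact ⟨Ch κ τ, hD, fun ζ hζ => key ζ (main ζ hζ)⟩

end Pool.Agent.Helper19.HO.CHO
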