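import Pool.Agent.Helper73.HX.Defs
import Pool.Agent.Helper73.HU.Defs

/-!
# Almost all ordinals of large cofinality are measurable in HOD.  Definition
-/

namespace Pool.Agent.Helper19.HO

open Ordinal Cardinal ZFSet Order Pool.Agent.Helper73.HODC Pool.Agent.Helper73.HM
open Pool.Agent.Helper73.HU

/-- There is a closed unbounded subset `C` of the cardinal `c` such that all elements `g` of `C`
below `c`, and `g = c` itself, have the following properties: `g` is a regular cardinal of HOD; if
the cofinality of `g` (in `V`) is at least `μ`, then `g` is measurable in HOD; and if the cofinality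
of `g` is greater than `θ`, then HOD contains a sequence of length `κ` of normal ultrafilters
on `g` (in the sense of HOD) which is increasing in the Mitchell order of HOD. -/
def MeasurableClub (κ θ μ c : Cardinal.{0}) : Prop :=
  ∃ C : Set Ordinal.{0}, Club C c.ord ∧ ∀ g : Ordinal.{0}, (g ∈ C ∧ g < c.ord) ∨ g = c.ord →
    HODReg g ∧ (μ ≤ g.cof → ∃ U, HODNormal g U) ∧ (θ < g.cof → MitchellChain κ.ord g)

end Pool.Agent.Helper19.HO
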