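import Pool.Agent.Helper19.HO.St
import Pool.Agent.Helper19.HN.Fin2

/-! # HO: assembly -/

namespace Pool.Agent.Helper19.HO

open Ordinal Cardinal ZFSet Order Pool.Agent.Helper73.HODC Pool.Agent.Helper73.HM
open Pool.Agent.Helper73.HE Pool.Agent.Helper73.HU Pool.Agent.Helper73.HX Pool.Agent.Helper19.HN

theorem ud : StUD := ud_of Inp.hp

theorem mem_UA {lam : Ordinal.{0}} {A : Set Ordinal.{0}} {X : ZFSet.{0}} :
    X ∈ UA lam A ↔ X ∈ hodPow lam ∧ ¬ Stat {a | a ∈ A ∧ a ∉ st X} lam := by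
  rw [UA, ZFSet.mem_sep]

theorem ua_sub {g : Ordinal.{0}} {A B : Set Ordinal.{0}} (hB : Atm g B)
    (h : Stat {a | a ∈ A ∧ a ∈ B} g) {X : ZFSet.{0}} (hX : X ∈ UA g A) : X ∈ UA g B := by
  rw [mem_UA] at hX ⊢
  refine ⟨hX.1, fun h' => ?_⟩
  have h1 := mem_hodPow.1 hX.1
  refine hB.atom.2 X h1.2 h1.1 ⟨?_, h'⟩
  rcases stat_or hB.cof h (A := st X) with h2 | h2
  · exact h2.mono fun a ha _ => ⟨ha.1.2, ha.2⟩
  · exact absurd (show Stat {a | a ∈ A ∧ a ∉ st X} g from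
      h2.mono fun a ha _ => ⟨ha.1.1, ha.2⟩) hX.2

theorem ua_eq {g : Ordinal.{0}} {A B : Set Ordinal.{0}} (hA : Atm g A) (hB : Atm g B)
    (h : Stat {a | a ∈ A ∧ a ∈ B} g) : UA g A = UA g B := by
  ext X
  exact ⟨fun hX => ua_sub hB h hX, fun hX => ua_sub hA (h.mono fun a ha _ => ⟨ha.2, ha.1⟩) hX⟩

/-- a definable stationary subset of an atom is an atom -/
theorem atom_sub {g : Ordinal.{0}} {A B : Set Ordinal.{0}} (hA : Atom g A) (hB : Stat B g)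
    (h : ∀ a ∈ B, a ∈ A) : Atom g B :=
  ⟨hB, fun X hX hXs hs => hA.2 X hX hXs ⟨hs.1.mono fun a ha _ => ⟨h a ha.1, ha.2⟩,
    hs.2.mono fun a ha _ => ⟨h a ha.1, ha.2⟩⟩⟩

theorem measClub_of (hCHO : StCHO) (hMLO : StMLO) (hNGA : StNGA) (hTRA : StTRA) (hCNV : StCNV)
    {κ θ μ c : Cardinal.{0}} (hκ : StronglyCompact κ) (hκθ : κ ≤ θ)
    {lam : Cardinal.{0} → Cardinal.{0}} (hlam : NoLong κ θ lam) (hμ : ℵ₀ < μ)
    (hμ' : (2 : Cardinal.{0}) ^ lam ℵ₀ < μ) (hc : c.IsRegular) (hθc : θ < c)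
    {m : Ordinal.{0} → ZFSet.{0}} {C₁ : Set Ordinal.{0}} (hm : ∀ k < c.ord, m k ∈ hodV c.ord)
    (hC₁ : Club C₁ c.ord) (hm' : ∀ g ∈ C₁, g < c.ord → ∀ x ∈ hodV g, ∃ k < g, cut (m k) g = x)
    (hNR : NonRigid c) : MeasClub κ θ μ c := by
  have hκc : κ < c := hκθ.trans_lt hθc
  have hc' : ℵ₀ < c := hκ.unc.trans hκc
  have hτ : ℵ₀ < c.ord.cof := reg_cof hc hc'
  -- the atoms
  have h1 : ∀ ν : Cardinal.{0}, ∃ (F : Ordinal.{0} → Set Ordinal.{0}) (C : Set Ordinal.{0}),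
      ν < κ → (∀ α, DPs (F α)) ∧ Club C c.ord ∧ ∀ g ∈ C, g < c.ord → ℵ₀ < g.cof →
        (2 : Cardinal.{0}) ^ lam ν < g.cof → ∀ T, Stat T g → (∀ a ∈ T, a.cof = ν) →
          ∃ α < g, Atm g (F α) ∧ HODNormal g (UA g (F α)) ∧ Stat {a | a ∈ F α ∧ a ∈ T} g := by
    intro ν
    by_cases hν : ν < κ
    · obtain ⟨F, C, hF, hC, hFC⟩ := hNGA (lam ν) c {a | a.cof = ν} hc hc' (dps_cof_eq Inp.cf ν)
        ((hlam ν hν).2 c.ord _ (by rw [hc.cof_ord]; exact hκc.le) fun a ha => ha)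
      obtain ⟨C', hC', hFC'⟩ := hTRA c m C₁ F hc hc' hm hC₁ hm' hF
      refine ⟨F, C ∩ C', fun _ => ⟨hF, hC.inter hτ hC', fun g hg hgc hg0 hg1 T hT hTν => ?_⟩⟩
      obtain ⟨α, hα, h2, h3⟩ := hFC g hg.1 hgc hg0 hg1 T hT hTν
      obtain ⟨h4, h5⟩ := hFC' g hg.2 hgc hg0 α hα h2 (h3.mono fun a ha _ => ha.1)
      exact ⟨α, hα, h4, h5, h3⟩
    · exact ⟨fun _ => ∅, ∅, fun h => absurd h hν⟩
  choose F C hFC using h1
  obtain ⟨C₂, i, hC₂, hi, -, -⟩ := hNR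
  have hclub := Club.biInter hc hc' (Cardinal.ord_lt_ord.2 hκc) (C := fun o => C o.card)
    (fun o ho => (hFC o.card (Cardinal.lt_ord.1 ho)).2.1)
  refine ⟨{a | ∀ ξ < κ.ord, a ∈ C ξ.card} ∩ (C₂ ∩ {a | IsSuccLimit a}), hclub.inter hτ
    (hC₂.inter hτ (club_limit hτ)), fun g hg hgc => ?_⟩
  have hgC : ∀ ν < κ, g ∈ C ν := by
    intro ν hν
    have h2 := hg.1 ν.ord (Cardinal.ord_lt_ord.2 hν)
    rwa [Cardinal.card_ord] at h2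
  refine ⟨hCNV c g (i g) hc hc' hgc hg.2.2 (hi g hg.2.1 hgc), fun hμg => ?_, fun hθg => ?_⟩
  · have hg0 : ℵ₀ < g.cof := hμ.trans_le hμg
    obtain ⟨α, -, -, h3, -⟩ := (hFC ℵ₀ hκ.unc).2.2 g (hgC ℵ₀ hκ.unc) hgc hg0
      (hμ'.trans_le hμg) _ (stat_cof_omega hg0) (fun a ha => ha)
    exact ⟨_, h3⟩
  · have hκg : κ < g.cof := hκθ.trans_lt hθg
    have hg0 : ℵ₀ < g.cof := hκ.unc.trans hκg
    have key : ∀ X, DPs X → Stat X g → (∀ a ∈ X, a.cof < κ) → ∃ A, Atm g A ∧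
        HODNormal g (UA g A) ∧ Stat {a | a ∈ A ∧ a ∈ X} g := by
      intro X hX hXs hXc
      obtain ⟨o, ho, h2⟩ := stat_few hg0 (j := κ.ord) (by rw [Cardinal.card_ord]; exact hκg)
        (F := fun o => {a | a.cof.ord = o}) hXs
        fun a ha _ => ⟨a.cof.ord, Cardinal.ord_lt_ord.2 (hXc a ha), rfl⟩
      have ho' : o.card < κ := Cardinal.lt_ord.1 ho
      obtain ⟨α, -, h3, h4, h5⟩ := (hFC o.card ho').2.2 g (hgC _ ho') hgc hg0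
        ((hlam o.card ho').1.trans_lt hθg) _ h2 fun a ha => by
          have h6 : a.cof.ord = o := ha.2
          rw [← h6, Cardinal.card_ord]
      exact ⟨_, h3, h4, h5.mono fun a ha _ => ⟨ha.1, ha.2.1⟩⟩
    obtain ⟨Af, hAf, hAf'⟩ := hCHO κ g hκ hκg.le fun X hX hXs hXc => by
      obtain ⟨A, h3, -, h5⟩ := key X hX hXs fun a ha => (hXc a ha).2
      have h6 : Stat {a | (a ∈ A ∧ a ∈ X) ∧ a < g} g := h5.mono fun a ha hag => ⟨ha, hag⟩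
      exact ⟨{a | (a ∈ A ∧ a ∈ X) ∧ a < g}, (h3.dps.and hX).and (DP.rank_lt_ord 0 g),
        fun a ha => ⟨ha.1.2, ha.2⟩, atom_sub h3.atom h6 fun a ha => ha.1.1⟩
    have hat : ∀ ξ < κ.ord, Atm g (Af ξ) := fun ξ hξ => ⟨hg0, DPr.sec hAf ξ, (hAf' ξ hξ).2.1⟩
    have hnm : ∀ ξ < κ.ord, HODNormal g (UA g (Af ξ)) := by
      intro ξ hξ
      obtain ⟨A, h3, h4, h5⟩ := key (Af ξ) (hat ξ hξ).dps (hat ξ hξ).stat
        fun a ha => ((hAf' ξ hξ).2.2 a ha).2.1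
      rw [← ua_eq h3 (hat ξ hξ) h5]
      exact h4
    refine ⟨fun ξ => UA g (Af ξ), ?_, hnm, ?_⟩
    · refine gr' κ.ord _ ?_ fun ξ hξ => (hnm ξ hξ).hod
      have h7 : DP (fun v => v 1 = UA (v 0).rank (Af (v 2).rank)) :=
        (ud Af hAf).rename (fun n => if n = 0 then 1 else if n = 1 then 0 else n)
      exact dp_subst_at (Q := fun x v => v 0 = UA x (Af (v 1).rank)) h7 g
    · intro ξ ζ hξ hζ
      refine hMLO g (Af ξ) (Af ζ) hg0 (DPr.sec hAf ξ) (DPr.sec hAf ζ)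
        (hat ξ (hξ.trans hζ)).atom (hat ζ hζ).atom fun σ hσ => ?_
      obtain ⟨h8, -, h9⟩ := (hAf' ζ hζ).2.2 σ hσ
      exact ⟨h8, h9 ξ hξ⟩

end Pool.Agent.Helper19.HO
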