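import Pool.Agent.Helper19.HO.St

/-! # HO, module MLO: Mitchell order, for ordinals -/

namespace Pool.Agent.Helper19.HO.MLO

open Ordinal Cardinal ZFSet Order Pool.Agent.Helper73.HODC Pool.Agent.Helper73.HM
open Pool.Agent.Helper73.HE Pool.Agent.Helper73.HU Pool.Agent.Helper73.HX Pool.Agent.Helper19.HN
open Pool.Agent.Helper19.HO Pool.Agent.Helper31.HM.ML

theorem mlo : StMLO := by
  intro τ A B hκ hA hB hatA hatB hrefl
  have h2 : StUD := ud_of Inp.hp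
  have h3 : StGR := gr'
  have hUA : DP (fun v => v 0 = UA (v 1).rank A) := h2 (fun _ => A) hA
  refine ⟨fun σ => UA σ A, h3 τ (fun σ => UA σ A) hUA (fun σ _ => hod_UA h2 hA σ), ?_⟩
  intro X hX
  obtain ⟨hXs, hXo⟩ := mem_hodPow.1 hX
  have hZ : {σ | X ∩ σ.toZFSet ∈ UA σ A} = {σ | ¬ Stat {a | a ∈ A ∧ a ∉ st X} σ} := by
    ext σ
    exact inter_mem_UA hX A σ
  have hXd : DPs (st X) := dps_ordSet hXs hXo
  have hN : DP (fun v => (v 0).rank ∈ A ∧ (v 0).rank ∉ st X) := DP.and hA (DP.not hXd)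
  have hZd : DPs {σ | ¬ Stat {a | a ∈ A ∧ a ∉ st X} σ} := by
    have h4 : DP (fun v => Stat {a | a ∈ A ∧ a ∉ st X} (v 0).rank) :=
      DP.statV (Q := fun a _ => a ∈ A ∧ a ∉ st X) hN 0
    exact DP.not h4
  show X ∈ UA τ A ↔ ordSet τ {σ | X ∩ σ.toZFSet ∈ UA σ A} ∈ UA τ B
  rw [hZ, mem_UA, mem_UA]
  have h5 : Stat {σ | σ ∈ B ∧ σ ∉ st (ordSet τ {σ | ¬ Stat {a | a ∈ A ∧ a ∉ st X} σ})} τ ↔
      Stat {σ | σ ∈ B ∧ Stat {a | a ∈ A ∧ a ∉ st X} σ} τ := by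
    refine stat_congr fun σ hσ => ?_
    show (σ ∈ B ∧ σ ∉ st (ordSet τ {σ | ¬ Stat {a | a ∈ A ∧ a ∉ st X} σ})) ↔
      (σ ∈ B ∧ Stat {a | a ∈ A ∧ a ∉ st X} σ)
    rw [mem_st_ordSet]
    refine and_congr Iff.rfl ?_
    constructor
    · intro h
      by_contra h'
      exact h ⟨hσ, h'⟩
    · rintro h ⟨-, h'⟩
      exact h' h
  rw [h5]
  constructor
  · rintro ⟨-, h⟩
    exact ⟨ordSet_mem_hodPow _ _ hZd, not_stat_refl hκ h⟩
  · rintro ⟨-, h⟩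
    refine ⟨hX, fun h' => ?_⟩
    have h6 : ¬ Stat {a | a ∈ A ∧ a ∈ st X} τ := fun h'' => hatA.2 X hXo hXs ⟨h'', h'⟩
    have h7 := not_stat_refl (B := B) hκ h6
    rcases stat_or hκ (A := {σ | Stat {a | a ∈ A ∧ a ∈ st X} σ}) hatB.1 with h8 | h8
    · exact h7 h8
    · refine h (h8.mono fun σ hσ _ => ⟨hσ.1, ?_⟩)
      obtain ⟨h9, h10⟩ := hrefl σ hσ.1
      rcases stat_or h9 (A := st X) h10 with h11 | h11
      · exact absurd h11 hσ.2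
      · exact h11

end Pool.Agent.Helper19.HO.MLO
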