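import Pool.Agent.Helper19.HO.St

/-! # HO, module NGA: atoms of `c` which are stationary in smaller ordinals -/

namespace Pool.Agent.Helper19.HO.NGA

open Ordinal Cardinal ZFSet Order Pool.Agent.Helper73.HODC Pool.Agent.Helper73.HM
open Pool.Agent.Helper73.HE Pool.Agent.Helper73.HU Pool.Agent.Helper73.HX Pool.Agent.Helper19.HN
open Pool.Agent.Helper19.HO

theorem nga : StNGA := by
  classical
  intro κ₀ c X hc hc' hX hns
  have hcof : ℵ₀ < c.ord.cof := reg_cof hc hc'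
  obtain ⟨-, -, hself, heq⟩ := Inp.ne c.ord X
  have hex : ∀ α, ∃ η, α ∈ X → α < c.ord → η < κ₀.ord ∧ α ∈ Helper73.HM.Nd c.ord X α η ∧
      ¬ ∃ B, LeastOD c.ord (Helper73.HM.Spl c.ord (Helper73.HM.Nd c.ord X α η)) B := by
    intro α
    by_cases hα' : α ∈ X ∧ α < c.ord
    · obtain ⟨hα, hαc⟩ := hα'
      have h5 : ∃ η < κ₀.ord, ¬ ∃ B, LeastOD c.ord (Helper73.HM.Spl c.ord (Helper73.HM.Nd c.ord X α η)) B := by
        by_contra h6
        push Not at h6
        exact Inp.nso κ₀ c.ord X hcof hX hns α (hself α κ₀.ord hα hαc h6)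
      obtain ⟨η, ⟨hη, h6⟩, hmin⟩ := WellFounded.has_min (wellFounded_lt (α := Ordinal.{0}))
        {η | η < κ₀.ord ∧ ¬ ∃ B, LeastOD c.ord (Helper73.HM.Spl c.ord (Helper73.HM.Nd c.ord X α η)) B} h5
      refine ⟨η, fun _ _ => ⟨hη, hself α η hα hαc fun η' hη' => ?_, h6⟩⟩
      by_contra h7
      exact hmin η' ⟨hη'.trans hη, h7⟩ hη'
    · exact ⟨0, fun h1 h2 => absurd ⟨h1, h2⟩ hα'⟩
  choose η hη using hex
  have hclub : ∀ α, ∃ D, Club D c.ord ∧ (¬ Stat (Helper73.HM.Nd c.ord X α (η α)) c.ord →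
      ∀ a ∈ Helper73.HM.Nd c.ord X α (η α), a ∈ D → ¬ a < c.ord) := by
    intro α
    by_cases h : Stat (Helper73.HM.Nd c.ord X α (η α)) c.ord
    · exact ⟨Set.univ, club_univ (isSuccLimit_of_cof hcof), fun h' => absurd h h'⟩
    · unfold Stat at h
      push Not at h
      obtain ⟨D, hD, hD'⟩ := h
      exact ⟨D, hD, fun _ a ha haD => not_lt.2 (hD' a ha haD)⟩
  choose D hD hD' using hclub
  refine ⟨fun α => Helper73.HM.Nd c.ord X α (η α), {g | ∀ α < g, g ∈ {a | a ≠ 0 ∧ UnbIn (D α) a}}, ?_,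
    Club.diag hc hc' fun α _ => club_lim hcof (hD α), ?_⟩
  · intro α
    have h5 := Inp.nd c.ord X hX
    have h6 : DP (fun v => (v 0).rank ∈ Helper73.HM.Nd c.ord X α (v 1).rank) :=
      dp_subst_at (Q := fun x v => (v 0).rank ∈ Helper73.HM.Nd c.ord X x (v 1).rank)
        (h5.rename (fun n => if n = 0 then 1 else if n = 1 then 0 else n)) α
    exact dp_subst_at (Q := fun x v => (v 0).rank ∈ Helper73.HM.Nd c.ord X α x)
      (h6.rename (fun n => if n = 0 then 1 else 0)) (η α)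
  · intro g hg hgc hg0 hpow T hT hTX
    -- the pigeonhole principle
    set Y : Type := Option κ₀.ord.ToType × Set κ₀.ord.ToType with hY
    have hκ : κ₀ < g.cof := (Cardinal.cantor κ₀).trans hpow
    have hYc : Cardinal.mk Y < g.cof := by
      rw [hY, Cardinal.mk_prod, Cardinal.lift_id, Cardinal.lift_id, Cardinal.mk_option,
        Cardinal.mk_set, mk_toType, Cardinal.card_ord]
      refine Cardinal.mul_lt_of_lt hg0.le ?_ hpow
      exact Cardinal.add_lt_of_lt hg0.le hκ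
        (Cardinal.one_lt_aleph0.trans_le hg0.le)
    let G : Ordinal.{0} → Y := fun α =>
      (if h : η α < κ₀.ord then some (ToType.mk ⟨_, h⟩) else none,
        {z | ∃ ξ : Set.Iio κ₀.ord, ToType.mk ξ = z ∧ ξ.1 ∈ Helper73.HM.br c.ord X α})
    have hG : ∀ α α', α ∈ X → α' ∈ X → α < c.ord → α' < c.ord → G α = G α' →
        η α = η α' ∧ ∀ ξ < κ₀.ord, ξ ∈ Helper73.HM.br c.ord X α ↔ ξ ∈ Helper73.HM.br c.ord X α' := by
      intro α α' hα hα' hαc hαc' hgg
      have h5 := congrArg Prod.fst hgg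
      have h6 := congrArg Prod.snd hgg
      simp only [G] at h5 h6
      rw [dif_pos (hη α hα hαc).1, dif_pos (hη α' hα' hαc').1] at h5
      refine ⟨Subtype.ext_iff.1 (ToType.mk.injective (Option.some.inj h5)), fun ξ hξ => ?_⟩
      have h7 := Set.ext_iff.1 h6 (ToType.mk ⟨ξ, hξ⟩)
      simp only [Set.mem_ofPred_eq] at h7
      constructor
      · intro h8
        obtain ⟨ξ', h9, h10⟩ := h7.1 ⟨⟨ξ, hξ⟩, rfl, h8⟩
        have h11 := ToType.mk.injective h9
        rw [h11] at h10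
        exact h10
      · intro h8
        obtain ⟨ξ', h9, h10⟩ := h7.2 ⟨⟨ξ, hξ⟩, rfl, h8⟩
        have h11 := ToType.mk.injective h9
        rw [h11] at h10
        exact h10
    obtain ⟨y, hy⟩ := Inp.pg g Y T G hg0 hYc hT
    obtain ⟨α₀, ⟨hα₀, hg₀⟩, -, hα₀g⟩ := hy _ (club_univ (isSuccLimit_of_cof hg0))
    have hα₀c := hα₀g.trans hgc
    obtain ⟨hη₀, hN₀, hL₀⟩ := hη α₀ (hTX α₀ hα₀) hα₀c
    have hst : Stat {a | a ∈ Helper73.HM.Nd c.ord X α₀ (η α₀) ∧ a ∈ T} g := by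
      refine hy.mono fun a ha hag => ?_
      obtain ⟨haT, hga⟩ := ha
      have haX := hTX a haT
      have hac := hag.trans hgc
      obtain ⟨h5, h6⟩ := hG a α₀ haX (hTX α₀ hα₀) hac hα₀c (hga.trans hg₀.symm)
      obtain ⟨h7, h8, -⟩ := hη a haX hac
      have h9 := heq a α₀ (η a) h8 (fun ξ hξ => h6 ξ (hξ.trans h7)) (η a) le_rfl
      rw [h9, h5] at h8
      exact ⟨h8, haT⟩
    refine ⟨α₀, hα₀g, ⟨hcof, ?_, ?_, ?_⟩, hst⟩
    · have h5 := Inp.nd c.ord X hX
      have h6 : DP (fun v => (v 0).rank ∈ Helper73.HM.Nd c.ord X α₀ (v 1).rank) :=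
        dp_subst_at (Q := fun x v => (v 0).rank ∈ Helper73.HM.Nd c.ord X x (v 1).rank)
          (h5.rename (fun n => if n = 0 then 1 else if n = 1 then 0 else n)) α₀
      exact dp_subst_at (Q := fun x v => (v 0).rank ∈ Helper73.HM.Nd c.ord X α₀ x)
        (h6.rename (fun n => if n = 0 then 1 else 0)) (η α₀)
    · by_contra hns'
      obtain ⟨-, hu⟩ := hg α₀ hα₀g
      obtain ⟨a, ha1, ha2, ha3⟩ := hst _ (club_at (hD α₀) hgc hu)
      exact hD' α₀ hns' a ha1.1 ha2 (ha3.trans hgc)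
    · intro B hB hBs hspl
      exact hL₀ ((Inp.le.2 c.ord _) ⟨B, hB, hBs, hspl⟩)

end Pool.Agent.Helper19.HO.NGA
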