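import Pool.Agent.Helper19.HO.Fin
import Pool.Agent.Helper19.HO.CHO
import Pool.Agent.Helper19.HO.MLO
import Pool.Agent.Helper19.HO.NGA

/-! # HO: the theorem from the remaining modules -/

namespace Pool.Agent.Helper19.HO

open Ordinal Cardinal ZFSet Order Pool.Agent.Helper73.HODC Pool.Agent.Helper73.HM
open Pool.Agent.Helper73.HE Pool.Agent.Helper73.HU Pool.Agent.Helper73.HX Pool.Agent.Helper19.HN

theorem noLong_mono {κ θ θ' : Cardinal.{0}} {lam : Cardinal.{0} → Cardinal.{0}} (h : θ ≤ θ')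
    (hl : NoLong κ θ lam) : NoLong κ θ' lam := fun ν hν => ⟨(hl ν hν).1.trans h, (hl ν hν).2⟩

theorem meas_of (hTRA : StTRA) (hNSQ : StNSQ) (hLC : StLC)
    (hSM : StSM) (hNAT : StNAT) (hSUR : StSUR) (hGD : StGD) (hCLB : StCLB)
    (hENM : StENM) (hELE : StELE) (hHUL : StHUL) (hCNV : StCNV) {κ : Cardinal.{0}}
    (hκ : StronglyCompact κ) (hF : Fl κ) :
    ∃ θ μ : Cardinal.{0}, (Extendible κ → θ = κ ∧ μ < κ) ∧
      ∀ c : Cardinal.{0}, c.IsRegular → θ < c → MeasClub κ θ μ c := by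
  classical
  obtain ⟨θ₁, hκθ₁, hθ₁, hA⟩ := hNAT κ hκ hF
  obtain ⟨θ₂, lam, hκθ₂, hθ₂, hlamκ, hlam⟩ := hNSQ κ hκ hF
  set θ : Cardinal.{0} := max θ₁ θ₂ with hθdef
  have hκθ : κ ≤ θ := hκθ₁.trans (le_max_left _ _)
  have hlam' : NoLong κ θ lam := noLong_mono (le_max_right _ _) hlam
  have key : ∀ μ : Cardinal.{0}, ℵ₀ < μ → (2 : Cardinal.{0}) ^ lam ℵ₀ < μ →
      ∀ c : Cardinal.{0}, c.IsRegular → θ < c → MeasClub κ θ μ c := by
    intro μ hμ hμ' c hc h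
    have h1 : θ₁ < c := (le_max_left _ _).trans_lt h
    have hc' : ℵ₀ < c := (hκ.unc.trans_le hκθ).trans h
    obtain ⟨A, hAc⟩ := exists_atm hA hκ.unc hκθ₁ hc h1
    obtain ⟨X, hX⟩ := hSUR κ θ₁ c hA hκ.unc hκθ₁ hc h1
    obtain ⟨D, hD⟩ := hENM c hc hc' (hSM c A hc hAc)
    obtain ⟨C, hC, hC'⟩ := hCLB κ θ₁ c X hκ hκθ₁ hA hc h1 hX
      fun B hB hBκ => hGD κ θ₁ c B X hκ hκθ₁ hA hc h1 hB hBκ hX
    obtain ⟨m, C', h1, -, h3, h4⟩ := hHUL c X D C hc hc' hX hD hC hC'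
    exact measClub_of CHO.cho MLO.mlo NGA.nga hTRA hCNV hκ hκθ hlam' hμ hμ' hc h h1 h3 h4
      (hELE c X D C hc hc' hX hD hC hC')
  by_cases hE : Extendible κ
  · have hlt : max ℵ₀ ((2 : Cardinal.{0}) ^ lam ℵ₀) < κ :=
      max_lt hκ.unc (hlamκ hE ℵ₀ hκ.unc)
    refine ⟨θ, succ (max ℵ₀ ((2 : Cardinal.{0}) ^ lam ℵ₀)), fun _ => ⟨?_, ?_⟩,
      key _ ((le_max_left _ _).trans_lt (Order.lt_succ _))
        ((le_max_right _ _).trans_lt (Order.lt_succ _))⟩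
    · rw [hθdef, hθ₁ hE, hθ₂ hE, max_self]
    · exact lt_of_le_of_lt (Order.succ_le_of_lt (Cardinal.cantor _)) (hLC κ hκ _ hlt)
  · refine ⟨θ, succ θ, fun h => absurd h hE, key _ ?_ ?_⟩
    · exact (hκ.unc.trans_le hκθ).trans (Order.lt_succ _)
    · exact ((hlam' ℵ₀ hκ.unc).1).trans_lt (Order.lt_succ _)

end Pool.Agent.Helper19.HO
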