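import Pool.Agent.Helper19.HO.Fin2
import Pool.Agent.Helper19.HO.Defs

/-! # HO: the dichotomy -/

namespace Pool.Agent.Helper19.HO

open Ordinal Cardinal ZFSet Order Pool.Agent.Helper73.HODC Pool.Agent.Helper73.HM
open Pool.Agent.Helper73.HE Pool.Agent.Helper73.HU Pool.Agent.Helper73.HX Pool.Agent.Helper19.HN

theorem club_of {κ θ θ' μ c : Cardinal.{0}} (hκ : ℵ₀ < κ) (hc : c.IsRegular)
    (hch : MitchellChain κ.ord c.ord) (h : θ ≤ θ') (hM : MeasClub κ θ μ c) :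
    MeasurableClub κ θ' μ c := by
  obtain ⟨C, hC, hC'⟩ := hM
  refine ⟨C, hC, ?_⟩
  rintro g (⟨hg, hgc⟩ | rfl)
  · obtain ⟨h1, h2, h3⟩ := hC' g hg hgc
    exact ⟨h1, h2, fun h4 => h3 (h.trans_lt h4)⟩
  · refine ⟨hodReg_of_regular hc, fun _ => ?_, fun _ => hch⟩
    obtain ⟨U, -, hU, -⟩ := hch
    exact ⟨U 0, hU 0 (by rw [← ord_zero]; exact ord_lt_ord.2 (aleph0_pos.trans hκ))⟩

theorem dichotomy_of (hm : ∀ κ : Cardinal.{0}, StronglyCompact κ → Fl κ →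
      ∃ θ μ : Cardinal.{0}, (Extendible κ → θ = κ ∧ μ < κ) ∧
        ∀ c : Cardinal.{0}, c.IsRegular → θ < c → MeasClub κ θ μ c)
    (κ : Cardinal.{0}) (hκ : StronglyCompact κ) :
    (HODHypothesis ∧
      ∀ α : Ordinal.{0}, IsSuccLimit α → κ.ord ≤ α → α.cof < κ → HODSing α) ∨
    ∃ θ μ : Cardinal.{0}, (Extendible κ → θ = κ ∧ μ < κ) ∧
      ∀ c : Cardinal.{0}, c.IsRegular → θ < c →
        OmegaStronglyMeasurable c.ord ∧ MeasurableClub κ θ μ c := by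
  rcases mitchell κ hκ with h | ⟨θ₁, hθ₁, h⟩
  · exact Or.inl h
  · refine Or.inr ?_
    have hH : ¬ HODHypothesis := by
      intro hH
      obtain ⟨c, hc, hθ, hn⟩ := hH θ₁
      exact hn (h c hc hθ).1
    obtain ⟨θ, μ, h1, h2⟩ := hm κ hκ (fail_of hκ hH)
    have key : ∀ θ' : Cardinal.{0}, θ ≤ θ' → (∀ c : Cardinal.{0}, θ' < c → θ₁ < c.ord) →
        ∀ c : Cardinal.{0}, c.IsRegular → θ' < c →
          OmegaStronglyMeasurable c.ord ∧ MeasurableClub κ θ' μ c := fun θ' h3 h4 c hc h5 =>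
      ⟨(h c hc (h4 c h5)).1, club_of hκ.unc hc (h c hc (h4 c h5)).2 h3 (h2 c hc (h3.trans_lt h5))⟩
    by_cases hE : Extendible κ
    · exact ⟨κ, μ, fun _ => ⟨rfl, (h1 hE).2⟩, key κ (h1 hE).1.le fun c hc => by
        rw [hθ₁ hE]; exact ord_lt_ord.2 hc⟩
    · exact ⟨max θ (Order.succ θ₁.card), μ, fun h => absurd h hE, key _ (le_max_left _ _)
        fun c hc => lt_ord.2 ((Order.lt_succ _).trans ((le_max_right _ _).trans_lt hc))⟩

end Pool.Agent.Helper19.HO
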