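import Pool.Agent.Helper19.HO.Fin3
import Pool.Agent.Helper19.HN.Plug
import Pool.Agent.Helper63.HO.TRA
import Pool.Agent.Helper91.HO.NSQ

/-! # HO: the theorem from the last module -/

namespace Pool.Agent.Helper19.HO

open Ordinal Cardinal ZFSet Order Pool.Agent.Helper73.HODC Pool.Agent.Helper73.HM
open Pool.Agent.Helper73.HE Pool.Agent.Helper73.HU Pool.Agent.Helper73.HX Pool.Agent.Helper19.HN

theorem dichotomy_gd (hGD : StGD) (κ : Cardinal.{0}) (hκ : StronglyCompact κ) :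
    (HODHypothesis ∧
      ∀ α : Ordinal.{0}, IsSuccLimit α → κ.ord ≤ α → α.cof < κ → HODSing α) ∨
    ∃ θ μ : Cardinal.{0}, (Extendible κ → θ = κ ∧ μ < κ) ∧
      ∀ c : Cardinal.{0}, c.IsRegular → θ < c →
        OmegaStronglyMeasurable c.ord ∧ MeasurableClub κ θ μ c :=
  dichotomy_of (fun _ h1 h2 => meas_of Pool.Agent.Helper63.HO.TRA.tra
    Pool.Agent.Helper91.HO.NSQ.nsq m_lc m_sm m_nat m_sur hGD m_clb m_enm m_ele m_hul m_cnv h1 h2)
    κ hκ

end Pool.Agent.Helper19.HO
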