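import Pool.Agent.Helper19.HN.St

/-! # HO: almost all ordinals of large cofinality are measurable in HOD.  Statements -/

namespace Pool.Agent.Helper19.HO

open Ordinal Cardinal ZFSet Order Pool.Agent.Helper73.HODC Pool.Agent.Helper73.HM
open Pool.Agent.Helper73.HE Pool.Agent.Helper73.HU Pool.Agent.Helper73.HX Pool.Agent.Helper19.HN

/-- the conclusion of the theorem for one regular cardinal `c`: in a closed unbounded subset of
`c`, all ordinals are regular cardinals of HOD, those of cofinality at least `μ` are measurable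
in HOD, and those of cofinality greater than `θ` have Mitchell order at least `κ` in HOD -/
def MeasClub (κ θ μ c : Cardinal.{0}) : Prop :=
  ∃ C, Club C c.ord ∧ ∀ g ∈ C, g < c.ord → HODReg g ∧
    (μ ≤ g.cof → ∃ U, HODNormal g U) ∧ (θ < g.cof → MitchellChain κ.ord g)

/-- CHO: the chain of atoms, for ordinals -/
def StCHO : Prop := ∀ (κ : Cardinal.{0}) (τ : Ordinal.{0}), StronglyCompact κ → κ ≤ τ.cof →
  (∀ X, DPs X → Stat X τ → (∀ a ∈ X, ℵ₀ < a.cof ∧ a.cof < κ) →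
    ∃ A, DPs A ∧ (∀ a ∈ A, a ∈ X ∧ a < τ) ∧ Atom τ A) →
  ∃ A : Ordinal.{0} → Set Ordinal.{0}, DPr A ∧ ∀ ζ < κ.ord, (∀ a ∈ A ζ, a < τ) ∧
    Atom τ (A ζ) ∧ ∀ σ ∈ A ζ, ℵ₀ < σ.cof ∧ σ.cof < κ ∧ ∀ ξ < ζ, Stat (A ξ) σ

/-- MLO: Mitchell order, for ordinals -/
def StMLO : Prop := ∀ (τ : Ordinal.{0}) (A B : Set Ordinal.{0}), ℵ₀ < τ.cof → DPs A → DPs B →
  Atom τ A → Atom τ B → (∀ σ ∈ B, ℵ₀ < σ.cof ∧ Stat A σ) → MLt τ (UA τ A) (UA τ B)

/-- NGA: atoms of `c` which are stationary in smaller ordinals -/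
def StNGA : Prop := ∀ (κ₀ c : Cardinal.{0}) (S : Set Ordinal.{0}), c.IsRegular → ℵ₀ < c →
  DPs S → NoSeqO κ₀ c.ord S →
  ∃ (F : Ordinal.{0} → Set Ordinal.{0}) (C : Set Ordinal.{0}), (∀ α, DPs (F α)) ∧
    Club C c.ord ∧ ∀ g ∈ C, g < c.ord → ℵ₀ < g.cof → (2 : Cardinal.{0}) ^ κ₀ < g.cof →
      ∀ T, Stat T g → (∀ a ∈ T, a ∈ S) →
        ∃ α < g, Atm c.ord (F α) ∧ Stat {a | a ∈ F α ∧ a ∈ T} g

/-- TRA: an atom of `c` is an atom with a normal ultrafilter at almost all its reflection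
points -/
def StTRA : Prop := ∀ (c : Cardinal.{0}) (m : Ordinal.{0} → ZFSet.{0}) (C' : Set Ordinal.{0})
  (F : Ordinal.{0} → Set Ordinal.{0}), c.IsRegular → ℵ₀ < c →
    (∀ k < c.ord, m k ∈ hodV c.ord) → Club C' c.ord →
    (∀ g ∈ C', g < c.ord → ∀ x ∈ hodV g, ∃ k < g, cut (m k) g = x) → (∀ α, DPs (F α)) →
    ∃ C, Club C c.ord ∧ ∀ g ∈ C, g < c.ord → ℵ₀ < g.cof → ∀ α < g, Atm c.ord (F α) →
      Stat (F α) g → Atm g (F α) ∧ HODNormal g (UA g (F α))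

/-- there are no long definable sequences of disjoint stationary sets of ordinals of one
cofinality -/
def NoLong (κ θ : Cardinal.{0}) (lam : Cardinal.{0} → Cardinal.{0}) : Prop :=
  ∀ ν < κ, (2 : Cardinal.{0}) ^ lam ν ≤ θ ∧ ∀ (τ : Ordinal.{0}) (X : Set Ordinal.{0}),
    κ ≤ τ.cof → (∀ a ∈ X, a.cof = ν) → NoSeqO (lam ν) τ X

/-- NSQ -/
def StNSQ : Prop := ∀ κ : Cardinal.{0}, StronglyCompact κ → Fl κ →
  ∃ (θ : Cardinal.{0}) (lam : Cardinal.{0} → Cardinal.{0}), κ ≤ θ ∧ (Extendible κ → θ = κ) ∧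
    (Extendible κ → ∀ ν < κ, (2 : Cardinal.{0}) ^ lam ν < κ) ∧ NoLong κ θ lam

end Pool.Agent.Helper19.HO
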